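import Pool.Agent.J4H57.EE.Den
import Pool.Agent.H726.GB.Tail

/-!
# Project EE (MP_794e6e_pr), BAL: balance of free plaquettes and bumps
-/

set_option autoImplicit false

namespace Pool.Agent.J4H57.EE

open Finset Filter Topology KN
open Pool.Agent.J4H21.EE
open TH966.AK
open scoped Classical

noncomputable section

/-- downward moves -/
def bb (w : List Dir) : Finset (ℕ × Dir) :=
  if 6 ≤ w.length then (bumps w).image (fun j => (j, w.getD (j + 2) .xp)) else ∅

theorem mem_bb {w : List Dir} {j : ℕ} {d : Dir} :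
    (j, d) ∈ bb w ↔ 6 ≤ w.length ∧ bump w j ∧ d = w.getD (j + 2) .xp := by
  unfold bb
  split_ifs with h
  · rw [mem_image]
    constructor
    · rintro ⟨i, hi, he⟩
      rw [Prod.mk.injEq] at he
      obtain ⟨rfl, rfl⟩ := he
      exact ⟨h, mem_bumps.mp hi, rfl⟩
    · rintro ⟨-, h1, rfl⟩
      exact ⟨j, mem_bumps.mpr h1, rfl⟩
  · constructor
    · intro h1
      simp at h1
    · rintro ⟨h1, -⟩
      exact absurd h1 h

theorem card_bb_le (w : List Dir) : (bb w).card ≤ bu w := by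
  unfold bb
  split_ifs
  · exact card_image_le
  · simp

theorem card_bb {w : List Dir} (h : 6 ≤ w.length) : (bb w).card = bu w := by
  unfold bb
  rw [if_pos h]
  apply card_image_of_injective
  intro i j hij
  exact (Prod.mk.inj hij).1

theorem bu_le (w : List Dir) : bu w ≤ w.length := by
  unfold bu bumps
  exact (card_filter_le _ _).trans (by simp)

theorem card_Dir : Fintype.card Dir = 6 := rfl

theorem fr_le (w : List Dir) : fr w ≤ 6 * w.length := by
  unfold fr sites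
  refine (card_filter_le _ _).trans ?_
  rw [card_product, card_range, card_univ, card_Dir, mul_comm]

theorem mem_P {n : ℕ} {w : List Dir} : w ∈ P n ↔ w.length = n ∧ SAP w := by
  unfold P
  rw [mem_filter, mem_W]

/-- the system of the polygons -/
def polSys : Sys (List Dir) (ℕ × Dir) where
  K := P
  S := sites
  B := bb
  ins w p := ins w p.1 p.2
  rem w p := rem w p.1
  s := 2
  C := 28
  n0 := 0
  hC := by norm_num
  ins_K := by
    rintro n w ⟨i, d⟩ hw hq
    obtain ⟨h1, h2⟩ := mem_P.mp hw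
    obtain ⟨h3, h4, -⟩ := S_ins_proof w i d h2 (mem_sites.mp hq)
    exact mem_P.mpr ⟨by show (ins w i d).length = n + 2; rw [h4, h1], h3⟩
  ins_B := by
    rintro n w ⟨i, d⟩ hw hq
    obtain ⟨h1, h2⟩ := mem_P.mp hw
    obtain ⟨h3, h4, h5, h6, h7⟩ := S_ins_proof w i d h2 (mem_sites.mp hq)
    refine mem_bb.mpr ⟨?_, h5, h7.symm⟩
    show 6 ≤ (ins w i d).length
    rw [h4]
    have := h2.1
    omega
  rem_ins := by
    rintro n w ⟨i, d⟩ hw hq
    obtain ⟨h1, h2⟩ := mem_P.mp hw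
    exact (S_ins_proof w i d h2 (mem_sites.mp hq)).2.2.2.1
  rem_K := by
    rintro n w ⟨i, d⟩ - hw hq
    obtain ⟨h1, h2⟩ := mem_P.mp hw
    obtain ⟨h3, h4, h5⟩ := mem_bb.mp hq
    obtain ⟨h6, h7, -⟩ := S_rem_proof w i h2 h3 h4
    refine mem_P.mpr ⟨?_, h6⟩
    show (rem w i).length = n
    have : (rem w i).length + 2 = n + 2 := by rw [h7, h1]
    omega
  rem_S := by
    rintro n w ⟨i, d⟩ - hw hq
    obtain ⟨h1, h2⟩ := mem_P.mp hw
    obtain ⟨h3, h4, h5⟩ := mem_bb.mp hq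
    obtain ⟨h6, h7, h8, h9⟩ := S_rem_proof w i h2 h3 h4
    rw [h5]
    exact mem_sites.mpr h8
  ins_rem := by
    rintro n w ⟨i, d⟩ - hw hq
    obtain ⟨h1, h2⟩ := mem_P.mp hw
    obtain ⟨h3, h4, h5⟩ := mem_bb.mp hq
    obtain ⟨h6, h7, h8, h9⟩ := S_rem_proof w i h2 h3 h4
    show ins (rem w i) i d = w
    rw [h5]
    exact h9
  chS1 := by
    rintro n w ⟨i, d⟩ hw hq
    obtain ⟨h1, h2⟩ := mem_P.mp hw
    obtain ⟨h3, h4, h5, h6⟩ := S_change_proof w i d h2 (mem_sites.mp hq)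
    exact h3
  chS2 := by
    rintro n w ⟨i, d⟩ hw hq
    obtain ⟨h1, h2⟩ := mem_P.mp hw
    obtain ⟨h3, h4, h5, h6⟩ := S_change_proof w i d h2 (mem_sites.mp hq)
    show fr (ins w i d) ≤ fr w + 28
    omega
  chB1 := by
    rintro n w ⟨i, d⟩ hw hq
    obtain ⟨h1, h2⟩ := mem_P.mp hw
    obtain ⟨h3, h4, h5, h6⟩ := S_change_proof w i d h2 (mem_sites.mp hq)
    obtain ⟨-, h7, -⟩ := S_ins_proof w i d h2 (mem_sites.mp hq)
    have h8 : 6 ≤ (ins w i d).length := by
      rw [h7]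
      have := h2.1
      omega
    show (bb w).card ≤ (bb (ins w i d)).card + 28
    rw [card_bb h8]
    have := card_bb_le w
    omega
  chB2 := by
    rintro n w ⟨i, d⟩ hw hq
    obtain ⟨h1, h2⟩ := mem_P.mp hw
    obtain ⟨h3, h4, h5, h6⟩ := S_change_proof w i d h2 (mem_sites.mp hq)
    show (bb (ins w i d)).card ≤ (bb w).card + 28
    have h9 := card_bb_le (ins w i d)
    by_cases h8 : 6 ≤ w.length
    · rw [card_bb h8]
      omega
    · have := bu_le w
      omega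
  S_le := by
    intro n w hw
    obtain ⟨h1, h2⟩ := mem_P.mp hw
    have h3 := fr_le w
    show fr w ≤ 28 * (n + 1)
    omega

theorem pol_hB (n : ℕ) (w : List Dir) (hw : w ∈ polSys.K n) :
    (polSys.B w).card ≤ polSys.C * (n + 1) := by
  show (bb w).card ≤ 28 * (n + 1)
  have h1 : w.length = n := (mem_P.mp (show w ∈ P n from hw)).1
  have h2 := card_bb_le w
  have h3 := bu_le w
  omega

/-- **EE-BAL** -/
theorem t_BAL : S_BAL := by
  intro μ hB τ ε hτ hε
  have hμ := hB.ge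
  obtain ⟨c, hc, htail⟩ := H726.GB.tail (Y := polSys) rfl (μ := μ) (by linarith) pol_hB
  obtain ⟨τ', hτ'⟩ : ∃ τ' : ℝ, τ' = c * τ ^ 2 / 4 := ⟨_, rfl⟩
  have hτ0 : 0 < τ' := by rw [hτ']; positivity
  obtain ⟨C, hC, hg⟩ := P_growth hB τ' hτ0
  have hlim : Tendsto (fun n : ℕ => 2 * Real.exp 1 * C * Real.exp (-(c * τ ^ 2 / 2)) ^ n) atTop
      (𝓝 (2 * Real.exp 1 * C * 0)) := by
    refine (tendsto_pow_atTop_nhds_zero_of_lt_one (Real.exp_pos _).le ?_).const_mul _
    rw [Real.exp_lt_one_iff]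
    have : 0 < c * τ ^ 2 / 2 := by positivity
    linarith
  rw [mul_zero] at hlim
  filter_upwards [hlim.eventually_le_const hε, eventually_ge_atTop 1] with n hn hn1
  have hn0 : (0 : ℝ) < n := by exact_mod_cast hn1
  have hW : polSys.Wt (fun _ => (1 : ℝ)) := by
    refine ⟨fun _ _ _ => zero_le_one, ?_⟩
    intros
    rfl
  have h1 := htail (fun _ => (1 : ℝ)) hW (C * (1 + τ') ^ (2 * n)) n hn1 (by
    intro j hj
    have h2 : polSys.af (fun _ => (1 : ℝ)) j = ((P j).card : ℝ) := by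
      show ∑ w ∈ P j, (1 : ℝ) = _
      simp
    rw [h2]
    calc ((P j).card : ℝ) ≤ C * ((1 + τ') * μ) ^ j := hg j
      _ = C * (1 + τ') ^ j * μ ^ j := by rw [mul_pow]; ring
      _ ≤ C * (1 + τ') ^ (2 * n) * μ ^ j := by
        refine mul_le_mul_of_nonneg_right (mul_le_mul_of_nonneg_left ?_ hC.le) (by positivity)
        exact pow_le_pow_right₀ (by linarith) hj) (τ * n) (by positivity)
  have h2 : (((P n).filter (fun v => μ ^ 2 * (bu v : ℝ) + τ * n ≤ (fr v : ℝ))).card : ℝ) ≤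
      ∑ w ∈ (polSys.K n).filter (fun w => τ * n ≤ |((polSys.S w).card : ℝ) - μ ^ polSys.s * (polSys.B w).card|), (fun _ => (1 : ℝ)) w := by
    rw [sum_const, nsmul_eq_mul, mul_one]
    have h3 : (P n).filter (fun v => μ ^ 2 * (bu v : ℝ) + τ * n ≤ (fr v : ℝ)) ⊆
        (polSys.K n).filter (fun w => τ * n ≤ |((polSys.S w).card : ℝ) - μ ^ polSys.s * (polSys.B w).card|) := by
      intro w hw
      rw [mem_filter] at hw ⊢
      refine ⟨hw.1, le_abs.mpr (Or.inl ?_)⟩
      show τ * n ≤ (fr w : ℝ) - μ ^ 2 * ((bb w).card : ℝ)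
      have h4 : ((bb w).card : ℝ) ≤ bu w := by exact_mod_cast card_bb_le w
      have h5 : μ ^ 2 * ((bb w).card : ℝ) ≤ μ ^ 2 * (bu w : ℝ) := mul_le_mul_of_nonneg_left h4 (by positivity)
      linarith [hw.2]
    exact_mod_cast card_le_card h3
  refine h2.trans (h1.trans ?_)
  have h6 : (1 + τ') ^ (2 * n) ≤ Real.exp (c * τ ^ 2 / 2) ^ n := by
    rw [pow_mul]
    refine pow_le_pow_left₀ (by positivity) ?_ n
    calc (1 + τ') ^ 2 ≤ Real.exp τ' ^ 2 := by
          refine pow_le_pow_left₀ (by positivity) ?_ 2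
          have := Real.add_one_le_exp τ'
          linarith
      _ = Real.exp (c * τ ^ 2 / 2) := by
          rw [← Real.exp_nat_mul, hτ']
          congr 1
          push_cast
          ring
  have h7 : Real.exp (-(c * ((τ * n) ^ 2 / n))) = Real.exp (-(c * τ ^ 2)) ^ n := by
    rw [← Real.exp_nat_mul]
    congr 1
    field_simp
  have h8 : Real.exp (c * τ ^ 2 / 2) ^ n * Real.exp (-(c * τ ^ 2)) ^ n = Real.exp (-(c * τ ^ 2 / 2)) ^ n := by
    rw [← mul_pow, ← Real.exp_add]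
    congr 2
    ring
  rw [h7]
  calc 2 * Real.exp 1 * (C * (1 + τ') ^ (2 * n)) * μ ^ n * Real.exp (-(c * τ ^ 2)) ^ n
      ≤ 2 * Real.exp 1 * (C * Real.exp (c * τ ^ 2 / 2) ^ n) * μ ^ n * Real.exp (-(c * τ ^ 2)) ^ n := by
        gcongr
    _ = (2 * Real.exp 1 * C * (Real.exp (c * τ ^ 2 / 2) ^ n * Real.exp (-(c * τ ^ 2)) ^ n)) * μ ^ n := by ring
    _ = (2 * Real.exp 1 * C * Real.exp (-(c * τ ^ 2 / 2)) ^ n) * μ ^ n := by rw [h8]
    _ ≤ ε * μ ^ n := mul_le_mul_of_nonneg_right hn (by positivity)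

end

end Pool.Agent.J4H57.EE
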