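import Pool.Agent.H246KN.INS
import Pool.Agent.H246KN.REM
import Pool.Agent.H246KN.CHG
import Pool.Agent.H246KN.UP
import Pool.Agent.H246KN.DOWN
import Pool.Agent.H246KN.FIN
import Pool.Agent.H246KN.WALKS
import Pool.Agent.H246KN.SAT
import Pool.Agent.H246KN.POOR
import Pool.Agent.H246KN.PAT

/-!
# Project EE (MP_794e6e_pr): the pattern theorem of the library, with a small closure
-/

set_option autoImplicit false

namespace Pool.Agent.J4H57.EE

open KN

theorem c_up : S_up := S_up_proof S_ins_proof S_change_proof
theorem c_down : S_down := S_down_proof S_rem_proof S_change_proof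
theorem c_walks : S_walks := S_walks_proof S_fin_proof
theorem c_poor : S_poor := S_poor_proof c_walks S_sat_proof
theorem c_pattern : S_pattern := S_pattern_proof c_poor c_up c_down

end Pool.Agent.J4H57.EE
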