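import Pool.Agent.J4H21.EE.Stm
import Pool.Agent.J4H57.EE.Pat

/-!
# Project EE (MP_794e6e_pr), DEN: most polygons have many bumps
-/

set_option autoImplicit false

namespace Pool.Agent.J4H57.EE

open Finset Filter Topology KN
open Pool.Agent.J4H21.EE
open scoped Classical

noncomputable section

theorem K_eq (n : ℕ) : KN.K (fun _ => True) n = P n := by
  ext w
  unfold P
  rw [mem_K, mem_filter, mem_W, and_true]

theorem P_le (n : ℕ) : (P (n + 1)).card ≤ (S n).card := by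
  unfold P S
  refine card_le_card_of_injOn List.tail ?_ ?_
  · intro w hw
    rw [mem_coe, mem_filter, mem_W] at hw
    rw [mem_coe, mem_filter, mem_W]
    refine ⟨?_, POOR.saw_tail hw.2⟩
    rw [List.length_tail, hw.1]
    rfl
  · intro w hw w' hw' h
    rw [mem_coe, mem_filter] at hw hw'
    exact POOR.tail_inj hw.2 hw'.2 h

theorem P_zero : (P 0).card = 0 := by
  rw [card_eq_zero]
  unfold P
  rw [filter_eq_empty_iff]
  intro w hw h
  rw [mem_W] at hw
  have := h.1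
  omega

theorem P_growth {μ : ℝ} (h : Base μ) (τ : ℝ) (hτ : 0 < τ) :
    ∃ C : ℝ, 0 < C ∧ ∀ n : ℕ, ((P n).card : ℝ) ≤ C * ((1 + τ) * μ) ^ n := by
  obtain ⟨C, hC, hg⟩ := h.growth τ hτ
  have hμ := h.ge
  have h1 : 1 ≤ (1 + τ) * μ := by nlinarith
  refine ⟨C, hC, fun n => ?_⟩
  cases n with
  | zero =>
    rw [P_zero]
    simp only [Nat.cast_zero, pow_zero, mul_one]
    exact hC.le
  | succ n =>
    have h2 : ((P (n + 1)).card : ℝ) ≤ ((S n).card : ℝ) := by exact_mod_cast P_le n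
    calc ((P (n + 1)).card : ℝ) ≤ C * ((1 + τ) * μ) ^ n := h2.trans (hg n)
      _ ≤ C * ((1 + τ) * μ) ^ (n + 1) :=
        mul_le_mul_of_nonneg_left (pow_le_pow_right₀ h1 (Nat.le_succ n)) hC.le

/-- **EE-DEN** -/
theorem t_DEN : S_DEN := by
  intro μ hB
  have hμ := hB.ge
  obtain ⟨θ, C, hθ0, hθ1, hbad⟩ := c_pattern (fun _ => True) (fun _ _ _ _ _ => Iff.rfl) μ (by linarith) hB.le (by
    intro τ hτ
    obtain ⟨C, -, hC⟩ := P_growth hB τ hτ
    refine ⟨C, fun n => ?_⟩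
    unfold KN.a
    rw [K_eq]
    exact hC n)
  refine ⟨1 / 10 ^ 7, by positivity, fun ε hε => ?_⟩
  have h1 : Tendsto (fun n : ℕ => C * θ ^ n) atTop (𝓝 (C * 0)) :=
    (tendsto_pow_atTop_nhds_zero_of_lt_one hθ0.le hθ1).const_mul C
  rw [mul_zero] at h1
  filter_upwards [h1.eventually_le_const hε] with n hn
  have h2 : ((P n).filter (fun v => (bu v : ℝ) ≤ 1 / 10 ^ 7 * n)).card ≤ bad (fun _ => True) n := by
    unfold bad
    rw [K_eq]
    refine card_le_card fun v hv => ?_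
    rw [mem_filter] at hv ⊢
    refine ⟨hv.1, Or.inr ?_⟩
    have h3 := hv.2
    have h4 : ((10 ^ 7 * bu v : ℕ) : ℝ) ≤ n := by
      push_cast
      linarith
    exact_mod_cast h4
  calc (((P n).filter (fun v => (bu v : ℝ) ≤ 1 / 10 ^ 7 * n)).card : ℝ) ≤ (bad (fun _ => True) n : ℝ) := by
        exact_mod_cast h2
    _ ≤ C * (θ * μ) ^ n := hbad n
    _ = C * θ ^ n * μ ^ n := by rw [mul_pow]; ring
    _ ≤ ε * μ ^ n := mul_le_mul_of_nonneg_right hn (by positivity)

end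

end Pool.Agent.J4H57.EE
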